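import Pool.Agent.H92.SG.Stmts

/-!
# Module BLKT of board sg7: fixed vectors of `n` blocks
-/

namespace Pool.Agent.H40.SG

open Pool.Agent.H92.SG PowerSeries

theorem tw_shift (hB : TwB) {R : Type} [CommRing R] {m : ℕ} (t : Rˣ) (e : AddChar (ZMod m) R)
    (x : B) : ∀ (q : ℕ) (a : ℕ → ZMod m) (s : ℕ → V2 R),
      (∀ i < q, tw t e ((sh^[q]) x) a s i = s i) ∧
      ∀ i, tw t e ((sh^[q]) x) a s (q + i) =
        tw t e x (fun i => a (q + i)) (fun i => s (q + i)) i := by
  intro q
  induction q with
  | zero =>
    intro a s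
    refine ⟨fun i hi => absurd hi (by omega), fun i => ?_⟩
    simp
  | succ q ih =>
    intro a s
    rw [Function.iterate_succ_apply']
    refine ⟨?_, ?_⟩
    · intro i hi
      cases i with
      | zero => exact hB.sh0 R m t e _ a s
      | succ i =>
        rw [hB.sh1 R m t e _ a s i]
        exact (ih (fun j => a (j + 1)) (fun j => s (j + 1))).1 i (by omega)
    · intro i
      have h1 : q + 1 + i = (q + i) + 1 := by omega
      rw [h1, hB.sh1 R m t e _ a s (q + i),
        (ih (fun j => a (j + 1)) (fun j => s (j + 1))).2 i]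
      have h2 : (fun i => a (q + i + 1)) = fun i => a (q + 1 + i) := by
        funext j; congr 1; omega
      have h3 : (fun i => s (q + i + 1)) = fun i => s (q + 1 + i) := by
        funext j; congr 1; omega
      rw [h2, h3]

theorem b77_mem (hC : BlkColStmt) : β77 ∈ Bn 4 := by
  have h := hC.1 1
  have h1 : nfold 4 β77 1 = β77 := by
    show (1 : B) * (sh^[0 * (4 - 1)]) β77 = β77
    simp
  rw [h1] at h
  exact h

theorem pat_mono {n k : ℕ} {z : ℕ → ℕ} {a : ℕ → ZMod (3 ^ (k + 1))} (h : Pat (n + 1) k z a) :
    Pat n k z a :=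
  ⟨fun j hj => h.1 j (by omega), fun j hj => h.2 j (by omega)⟩

theorem nfold_succ' (n : ℕ) : nfold 4 β77 (n + 1) = nfold 4 β77 n * (sh^[3 * n]) β77 := by
  show nfold 4 β77 n * (sh^[n * (4 - 1)]) β77 = _
  have : n * (4 - 1) = 3 * n := by omega
  rw [this]

theorem BLKT_thm (hA : TwA) (hB : TwB) (hC : BlkColStmt) : BlkTStmt := by
  intro n
  induction n with
  | zero =>
    intro k z a _ s
    constructor
    · intro _ j hj
      exact absurd hj (by omega)
    · intro _
      exact hA.one ℂ _ tC (eC k) a s
  | succ n ih =>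
    intro k z a hP s
    have hPn := pat_mono hP
    have h1 := (hC.2 (n + 1) k z a hP).1
    have h2 := (hC.2 n k z a hPn).1
    have h3 : dih (ZMod (3 ^ (k + 1))) ((sh^[3 * n]) β77) a = a := by
      rw [nfold_succ', map_mul] at h1
      have h4 : (dih (ZMod (3 ^ (k + 1))) (nfold 4 β77 n))
          ((dih (ZMod (3 ^ (k + 1))) ((sh^[3 * n]) β77)) a) =
          (dih (ZMod (3 ^ (k + 1))) (nfold 4 β77 n)) a := by
        rw [h2]; exact h1
      exact (dih (ZMod (3 ^ (k + 1))) (nfold 4 β77 n)).injective h4
    obtain ⟨s', hs'⟩ : ∃ s', s' = tw tC (eC k) ((sh^[3 * n]) β77) a s := ⟨_, rfl⟩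
    have h5 : tw tC (eC k) (nfold 4 β77 (n + 1)) a s = tw tC (eC k) (nfold 4 β77 n) a s' := by
      rw [nfold_succ', hA.mul, h3, ← hs']
    obtain ⟨hsh1, hsh2⟩ := tw_shift hB tC (eC k) β77 (3 * n) a s
    rw [← hs'] at hsh1 hsh2
    have hloc : ∀ i, 3 * n + 4 ≤ i → s' i = s i := by
      intro i hi
      have h6 := hsh2 (i - 3 * n)
      have h7 : 3 * n + (i - 3 * n) = i := by omega
      rw [hB.loc1 ℂ _ tC (eC k) 4 β77 (b77_mem hC) _ _ (i - 3 * n) (by omega)] at h6
      rw [h7] at h6
      exact h6
    rw [h5]
    constructor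
    · intro hfix
      -- `s' = s`
      have e1 : ∀ i, 3 * n + 1 ≤ i → s' i = s i := by
        intro i hi
        have h6 := hB.loc1 ℂ _ tC (eC k) (3 * n + 1) _ (hC.1 n) a s' i hi
        rw [hfix] at h6
        exact h6.symm
      have e2 : ∑ i ∈ Finset.range (3 * n + 4), s' i = ∑ i ∈ Finset.range (3 * n + 4), s i := by
        have h6 := hB.sum ℂ _ tC (eC k) (3 * n + 4) _ (Bn_mono (by omega) (hC.1 n)) a s'
        rw [hfix] at h6
        exact h6.symm
      have e3 : s' (3 * n) = s (3 * n) := by
        rw [← Finset.add_sum_erase _ _ (show 3 * n ∈ Finset.range (3 * n + 4) by simp),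
          ← Finset.add_sum_erase (Finset.range (3 * n + 4)) s
            (show 3 * n ∈ Finset.range (3 * n + 4) by simp)] at e2
        have h6 : ∑ i ∈ (Finset.range (3 * n + 4)).erase (3 * n), s' i =
            ∑ i ∈ (Finset.range (3 * n + 4)).erase (3 * n), s i := by
          refine Finset.sum_congr rfl fun i hi => ?_
          have h7 := Finset.ne_of_mem_erase hi
          rcases Nat.lt_or_ge i (3 * n) with h8 | h8
          · exact hsh1 i h8
          · exact e1 i (by omega)
        rw [h6] at e2
        exact add_right_cancel e2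
      have e4 : s' = s := by
        funext i
        rcases Nat.lt_trichotomy i (3 * n) with h8 | h8 | h8
        · exact hsh1 i h8
        · rw [h8]; exact e3
        · exact e1 i (by omega)
      rw [e4] at hfix hsh2
      have h6 := (ih k z a hPn s).1 hfix
      intro j hj i hi
      rcases Nat.lt_or_ge j n with h7 | h7
      · exact h6 j h7 i hi
      · have h8 : j = n := by omega
        subst h8
        exact (hsh2 i).symm
    · intro hblk
      have e4 : s' = s := by
        funext i
        rcases Nat.lt_or_ge i (3 * n) with h8 | h8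
        · exact hsh1 i h8
        · rcases Nat.lt_or_ge i (3 * n + 4) with h9 | h9
          · have h10 := hsh2 (i - 3 * n)
            rw [hblk n (by omega) (i - 3 * n) (by omega)] at h10
            have h7 : 3 * n + (i - 3 * n) = i := by omega
            rw [h7] at h10
            exact h10
          · exact hloc i h9
      rw [e4]
      exact (ih k z a hPn s).2 fun j hj => hblk j (by omega)

end Pool.Agent.H40.SG
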