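import Pool.Agent.H92.SG.Stmts

/-!
# Module TWS of board sg7: the space of small vectors has dimension at most two
-/

namespace Pool.Agent.H40.SG

open Pool.Agent.H92.SG PowerSeries

section lin

variable {R : Type} [CommRing R] {m : ℕ}

theorem uu_zero (t : Rˣ) (e : AddChar (ZMod m) R) (a : ℕ → ZMod m) :
    ∀ (N i : ℕ), uu t e a 0 N i = 0 := by
  intro N
  induction N with
  | zero => intro i; rfl
  | succ N ih =>
    intro i
    show (if N < i then (0 : V2 R) else uu t e a (Gm t e (a N) 0) N i) = 0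
    rw [map_zero, ih]
    simp

theorem cst_zero (t : Rˣ) (e : AddChar (ZMod m) R) (N : ℕ) (a : ℕ → ZMod m) (i : ℕ) :
    cst t e N a 0 i = 0 := by
  unfold cst
  rw [uu_zero, uu_zero, sub_zero]

theorem cst4_zero (t : Rˣ) (e : AddChar (ZMod m) R) (a : ℕ → ZMod m) (v : V2 R) :
    cst t e 4 a v 0 = Gm t e (a 1) (Gm t e (a 2) (Gm t e (a 3) v)) -
      Gm t e (a 0) (Gm t e (a 1) (Gm t e (a 2) (Gm t e (a 3) v))) := by
  unfold cst
  simp [uu]

end lin

theorem om3_sq_ne : om3 ^ 2 ≠ 1 := by
  intro h
  have h3 := om3_cube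
  have h1 : om3 = 1 := by
    have : om3 ^ 3 = om3 ^ 2 * om3 := by ring
    rw [this, h, one_mul] at h3
    exact h3
  have h2 : om3 = Complex.exp (2 * Real.pi * Complex.I / 3) := rfl
  rw [h1] at h2
  have h4 := (Complex.exp_eq_one_iff.1 h2.symm)
  obtain ⟨n, hn⟩ := h4
  have hpi : (2 * Real.pi * Complex.I : ℂ) ≠ 0 := Complex.two_pi_I_ne_zero
  have h5 : (1 / 3 : ℂ) = n := by
    have : (2 * Real.pi * Complex.I / 3 : ℂ) = (1 / 3) * (2 * Real.pi * Complex.I) := by ring
    rw [this] at hn
    exact mul_right_cancel₀ hpi hn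
  have h6 : (3 * n : ℤ) = 1 := by
    have : ((3 * n : ℤ) : ℂ) = ((1 : ℤ) : ℂ) := by
      push_cast
      rw [← h5]; norm_num
    exact_mod_cast this
  omega

theorem th3_ne : th3 ≠ 0 := by
  intro h
  have h3 := om3_cube
  have h1 : om3 = -1 / 2 := by
    unfold th3 at h
    linear_combination h / 2
  rw [h1] at h3
  norm_num at h3

theorem gm_zero_fix {k : ℕ} {w : V2 ℂ} (h : w - Gm tC (eC k) 0 w = 0) : w = 0 := by
  have h1 : w = Gm tC (eC k) 0 w := sub_eq_zero.1 h
  have h0 : w 0 = om3 * w 1 := by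
    have := congrFun h1 0
    rw [this]
    show ((tC : ℂˣ) : ℂ) * ((eC k) 0 * w 1) = _
    rw [AddChar.map_zero_eq_one]
    simp [tC]
  have h2 : w 1 = om3 * w 0 := by
    have := congrFun h1 1
    rw [this]
    show ((tC : ℂˣ) : ℂ) * ((eC k) (-0) * w 0) = _
    rw [neg_zero, AddChar.map_zero_eq_one]
    simp [tC]
  have h4 : (om3 ^ 2 - 1) * w 0 = 0 := by
    linear_combination -om3 * h2 - h0
  have h5 : w 0 = 0 := by
    rcases mul_eq_zero.1 h4 with h | h
    · exact absurd (sub_eq_zero.1 h) om3_sq_ne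
    · exact h
  funext i
  fin_cases i
  · exact h5
  · show w 1 = 0
    rw [h2, h5, mul_zero]

theorem cst4_inj {k : ℕ} {a : ℕ → ZMod (3 ^ (k + 1))} (ha : a 0 = 0) {v : V2 ℂ}
    (h : cst tC (eC k) 4 a v 0 = 0) : v = 0 := by
  rw [cst4_zero, ha] at h
  have h1 := gm_zero_fix h
  have h2 := (LinearEquiv.map_eq_zero_iff _).1 h1
  have h3 := (LinearEquiv.map_eq_zero_iff _).1 h2
  exact (LinearEquiv.map_eq_zero_iff _).1 h3

/-- The constant coefficient of a small vector is a fixed vector. -/
theorem fix_const (hB : TwB) {k : ℕ} {x : B} {a : ℕ → ZMod (3 ^ (k + 1))}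
    {s : ℕ → V2 (PowerSeries ℂ)}
    (h : ∀ i p, (X : PowerSeries ℂ) ∣ tw tX (eX k) x a s i p - s i p) :
    tw tC (eC k) x a (fun i p => constantCoeff (s i p)) = fun i p => constantCoeff (s i p) := by
  have hn := hB.nat (PowerSeries ℂ) ℂ (constantCoeff (R := ℂ)) _ tX tC (eX k) (eC k) (by
    show constantCoeff (C om3 * (1 - C th3 * X) * (1 + C th3 * X)⁻¹) = om3
    simp) (by
    intro b
    show constantCoeff (C (eC k b)) = eC k b
    simp) x a s
  rw [hn]
  funext i p
  obtain ⟨q, hq⟩ := h i p
  have h1 : tw tX (eX k) x a s i p = s i p + X * q := by rw [← hq]; ring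
  rw [h1]
  simp

theorem pat_one {n k : ℕ} {z : ℕ → ℕ} {a : ℕ → ZMod (3 ^ (k + 1))} (h : Pat n k z a) {j : ℕ}
    (hj : j < n) : Pat 1 k (fun _ => z j) (fun i => a (3 * j + i)) := by
  refine ⟨?_, ?_⟩
  · intro i hi
    have : 3 * j + 3 * i = 3 * (j + i) := by ring
    show a (3 * j + 3 * i) = 0
    rw [this]
    exact h.1 _ (by omega)
  · intro i hi
    have hi0 : i = 0 := by omega
    subst hi0
    exact h.2 j hj

theorem TWS_thm (hB : TwB) (hK1 : KL1Stmt) (hK3 : KL3Stmt) (hT : BlkTStmt) (hF : BlkFormStmt) :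
    TwSStmt := by
  intro n k z a hz hP S hS
  -- key: a vector of `S` vanishing on strand 0 is zero
  have key : ∀ v ∈ S, v 0 = 0 → v = 0 := by
    intro v hv hv0
    obtain ⟨x, hx1, hx2, hx3, hx4⟩ := hS v hv
    set s : ℕ → V2 ℂ := fun i p => constantCoeff (x i p) with hs
    have hfix := fix_const hB hx3
    have hblk := (hT n k z a hP s).1 hfix
    have hform := hF n k z a hP x hx3
    have h1 : ∀ j < n, ∃ (w : V2 ℂ) (r : ℂ), (z j = 0 → r = 0) ∧
        ∀ i < 4, s (3 * j + i) = cst tC (eC k) 4 (fun i => a (3 * j + i)) w i + r • v0 (z j) i :=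
      fun j hj => hK1 k (z j) (hz j) _ (pat_one hP hj) (fun i => s (3 * j + i)) (hblk j hj)
    choose! w r hr1 hr2 using h1
    have h2 : ∀ j < n, (X : PowerSeries ℂ) ^ 2 ∣ Om cX tX (eX k) 4 (fun i => a (3 * j + i))
        (tw tX (eX k) β77 (fun i => a (3 * j + i)) (fun i => x (3 * j + i)) -
          fun i => x (3 * j + i)) (fun i => x (3 * j + i)) -
        C (72 * th3 * (Complex.normSq (r j) : ℂ)) * X := by
      intro j hj
      refine hK3 k (z j) (hz j) _ (pat_one hP hj) (fun i => x (3 * j + i)) (w j) (r j) (hr1 j hj) ?_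
      intro i hi p
      exact congrFun (hr2 j hj i hi) p
    have h3 : (X : PowerSeries ℂ) ^ 2 ∣
        ∑ j ∈ Finset.range n, C (72 * th3 * (Complex.normSq (r j) : ℂ)) * X := by
      have h4 := (dvd_sub_right hx4).1 hform
      have h5 := Finset.dvd_sum (s := Finset.range n) (fun j hj => h2 j (Finset.mem_range.1 hj))
      rw [Finset.sum_sub_distrib] at h5
      exact (dvd_sub_right h4).1 h5
    have h4 : ∑ j ∈ Finset.range n, Complex.normSq (r j) = 0 := by
      have h5 := (PowerSeries.X_pow_dvd_iff.1 h3) 1 (by norm_num)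
      rw [map_sum] at h5
      have h6 : ∀ j ∈ Finset.range n, coeff 1 (C (72 * th3 * (Complex.normSq (r j) : ℂ)) * X) =
          72 * th3 * (Complex.normSq (r j) : ℂ) := by
        intro j _
        rw [PowerSeries.coeff_C_mul, PowerSeries.coeff_one_X, mul_one]
      rw [Finset.sum_congr rfl h6, ← Finset.mul_sum] at h5
      have h7 : (72 * th3 : ℂ) ≠ 0 := mul_ne_zero (by norm_num) th3_ne
      have h8 := (mul_eq_zero.1 h5).resolve_left h7
      exact_mod_cast h8
    have h5 : ∀ j < n, r j = 0 := by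
      intro j hj
      have := (Finset.sum_eq_zero_iff_of_nonneg (fun i _ => Complex.normSq_nonneg (r i))).1 h4 j
        (Finset.mem_range.2 hj)
      exact Complex.normSq_eq_zero.1 this
    -- all strands vanish
    have h6 : ∀ j ≤ n, s (3 * j) = 0 := by
      intro j
      induction j with
      | zero =>
        intro _
        funext p
        have := hx1 0 p
        rw [hv0] at this
        exact this
      | succ j ih =>
        intro hj
        have h7 := ih (by omega)
        have h8 := hr2 j (by omega) 0 (by norm_num)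
        rw [h5 j (by omega), zero_smul, add_zero, add_zero, h7] at h8
        have h9 : w j = 0 := cst4_inj (by
          show a (3 * j + 0) = 0
          rw [add_zero]; exact hP.1 j (by omega)) h8.symm
        have h10 := hr2 j (by omega) 3 (by norm_num)
        rw [h5 j (by omega), zero_smul, add_zero, h9, cst_zero] at h10
        have : 3 * (j + 1) = 3 * j + 3 := by ring
        rw [this]
        exact h10
    have h7 : ∀ i < 3 * n + 1, s i = 0 := by
      intro i hi
      obtain ⟨j, hj⟩ : ∃ j, j = i / 3 := ⟨_, rfl⟩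
      by_cases hjn : j < n
      · have h8 := hr2 j hjn 0 (by norm_num)
        rw [h5 j hjn, zero_smul, add_zero, add_zero, h6 j (by omega)] at h8
        have h9 : w j = 0 := cst4_inj (by
          show a (3 * j + 0) = 0
          rw [add_zero]; exact hP.1 j (by omega)) h8.symm
        have h10 := hr2 j hjn (i - 3 * j) (by omega)
        rw [h5 j hjn, zero_smul, add_zero, h9, cst_zero] at h10
        have : 3 * j + (i - 3 * j) = i := by omega
        rw [this] at h10
        exact h10
      · have : i = 3 * n := by omega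
        rw [this]
        exact h6 n le_rfl
    funext i p
    have h8 := hx1 i p
    have h9 := congrFun (h7 i i.2) p
    rw [← h8]
    exact h9
  -- conclusion
  let f : S →ₗ[ℂ] V2 ℂ := (LinearMap.proj (0 : Fin (3 * n + 1))).comp S.subtype
  have hf : Function.Injective f := by
    rw [injective_iff_map_eq_zero]
    intro v hv
    exact Subtype.ext (key v v.2 hv)
  have := LinearMap.finrank_le_finrank_of_injective hf
  simpa using this

end Pool.Agent.H40.SG
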